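import Mathlib
import Pool.Agent.W133.DQ.Defs
import Pool.Agent.W133.DQ.StF

/-!
# Project DQ: transfer of `DC0` to the disk
-/

set_option autoImplicit false

open scoped ContDiff
open Set Filter Topology

namespace Pool.Agent.W714.DQ

open Pool.Agent.W133.DQ

/-- square of the Euclidean norm -/
def ns (p : P2) : ℝ := p.1 ^ 2 + p.2 ^ 2

theorem ns_nonneg (p : P2) : 0 ≤ ns p := by unfold ns; positivity

theorem ns_cont : Continuous ns := by unfold ns; fun_prop

/-- the plane onto the open disk -/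
noncomputable def io (p : P2) : P2 :=
  ((Real.sqrt (1 + p.1 ^ 2 + p.2 ^ 2))⁻¹ * p.1, (Real.sqrt (1 + p.1 ^ 2 + p.2 ^ 2))⁻¹ * p.2)

/-- its inverse -/
noncomputable def jo (q : P2) : P2 :=
  ((Real.sqrt (1 - (q.1 ^ 2 + q.2 ^ 2)))⁻¹ * q.1, (Real.sqrt (1 - (q.1 ^ 2 + q.2 ^ 2)))⁻¹ * q.2)

theorem iot_coe (p : P2) : ((iot p : DD) : P2) = io p := rfl

theorem one_sub_ns_io (p : P2) : 1 - ns (io p) = (1 + ns p)⁻¹ := by
  have h : (0:ℝ) < 1 + p.1 ^ 2 + p.2 ^ 2 := by positivity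
  have h2 := Real.sq_sqrt h.le
  unfold io ns
  simp only [mul_pow, inv_pow, h2]
  have h3 : (1 + (p.1 ^ 2 + p.2 ^ 2)) ≠ 0 := by positivity
  have h4 := h.ne'
  field_simp
  ring

theorem ns_io_lt (p : P2) : ns (io p) < 1 := by
  have h := one_sub_ns_io p
  have h2 : 0 < (1 + ns p)⁻¹ := by
    have := ns_nonneg p
    positivity
  linarith

theorem one_add_ns_jo (q : P2) (hq : ns q < 1) : 1 + ns (jo q) = (1 - ns q)⁻¹ := by
  have h : (0:ℝ) < 1 - (q.1 ^ 2 + q.2 ^ 2) := by unfold ns at hq; linarith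
  have h2 := Real.sq_sqrt h.le
  unfold jo ns
  simp only [mul_pow, inv_pow, h2]
  have h4 := h.ne'
  field_simp
  ring

theorem jo_io (p : P2) : jo (io p) = p := by
  have h := one_sub_ns_io p
  have h0 : (0:ℝ) < 1 + p.1 ^ 2 + p.2 ^ 2 := by positivity
  have h1 : 1 - ((io p).1 ^ 2 + (io p).2 ^ 2) = (1 + p.1 ^ 2 + p.2 ^ 2)⁻¹ := by
    unfold ns at h
    rw [h, add_assoc]
  have h3 : Real.sqrt (1 + p.1 ^ 2 + p.2 ^ 2) ≠ 0 := (Real.sqrt_pos.2 h0).ne'
  unfold jo
  rw [h1, Real.sqrt_inv, inv_inv]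
  unfold io
  ext
  · simp only
    field_simp
  · simp only
    field_simp

theorem io_jo (q : P2) (hq : ns q < 1) : io (jo q) = q := by
  have h := one_add_ns_jo q hq
  have h0 : (0:ℝ) < 1 - (q.1 ^ 2 + q.2 ^ 2) := by unfold ns at hq; linarith
  have h1 : 1 + (jo q).1 ^ 2 + (jo q).2 ^ 2 = (1 - (q.1 ^ 2 + q.2 ^ 2))⁻¹ := by
    unfold ns at h
    rw [← h, add_assoc]
  have h3 : Real.sqrt (1 - (q.1 ^ 2 + q.2 ^ 2)) ≠ 0 := (Real.sqrt_pos.2 h0).ne'
  unfold io
  rw [h1, Real.sqrt_inv, inv_inv]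
  unfold jo
  ext
  · simp only
    field_simp
  · simp only
    field_simp

theorem io_contDiff : ContDiff ℝ ∞ io := by
  unfold io
  have h : ContDiff ℝ ∞ (fun p : P2 => (Real.sqrt (1 + p.1 ^ 2 + p.2 ^ 2))⁻¹) := by
    apply ContDiff.inv
    · apply ContDiff.sqrt
      · fun_prop
      · intro p; positivity
    · intro p
      have : (0:ℝ) < 1 + p.1 ^ 2 + p.2 ^ 2 := by positivity
      exact (Real.sqrt_pos.2 this).ne'
  exact (h.mul contDiff_fst).prodMk (h.mul contDiff_snd)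

theorem jo_contDiffAt (q : P2) (hq : ns q < 1) : ContDiffAt ℝ ∞ jo q := by
  unfold jo
  have h0 : (0:ℝ) < 1 - (q.1 ^ 2 + q.2 ^ 2) := by unfold ns at hq; linarith
  have h : ContDiffAt ℝ ∞ (fun p : P2 => (Real.sqrt (1 - (p.1 ^ 2 + p.2 ^ 2)))⁻¹) q := by
    apply ContDiffAt.inv
    · apply ContDiffAt.sqrt
      · fun_prop
      · exact h0.ne'
    · exact (Real.sqrt_pos.2 h0).ne'
  exact (h.mul contDiffAt_fst).prodMk (h.mul contDiffAt_snd)

/-! ### Positive Jacobians -/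

theorem det_comp' (A B : P2 →L[ℝ] P2) : (A.comp B).det = A.det * B.det :=
  LinearMap.det_comp _ _

theorem det_pos_of_ne {F : P2 → P2} (hF : ContDiff ℝ ∞ F) (hne : ∀ p, (fderiv ℝ F p).det ≠ 0)
    (p₀ : P2) (h0 : 0 < (fderiv ℝ F p₀).det) (p : P2) : 0 < (fderiv ℝ F p).det := by
  have hc : Continuous fun p => (fderiv ℝ F p).det :=
    ContinuousLinearMap.continuous_det.comp (hF.continuous_fderiv (by simp))
  by_contra hcon
  push Not at hcon
  obtain ⟨w, -, hw⟩ := (isPreconnected_univ : IsPreconnected (univ : Set P2)).intermediate_value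
    (mem_univ p) (mem_univ p₀) hc.continuousOn ⟨hcon, h0.le⟩
  exact hne w hw

theorem det_id' : (ContinuousLinearMap.id ℝ P2).det = 1 := by
  simp [ContinuousLinearMap.det]

theorem det_io_pos (p : P2) : 0 < (fderiv ℝ io p).det := by
  refine det_pos_of_ne io_contDiff (fun p => ?_) 0 ?_ p
  · intro h
    have h1 : fderiv ℝ (jo ∘ io) p = (fderiv ℝ jo (io p)).comp (fderiv ℝ io p) :=
      fderiv_comp _ ((jo_contDiffAt _ (ns_io_lt p)).differentiableAt (by simp))
        (io_contDiff.differentiable (by simp) _)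
    have h2 : jo ∘ io = id := funext jo_io
    rw [h2, fderiv_id] at h1
    have h3 := congrArg ContinuousLinearMap.det h1
    rw [det_comp', h, mul_zero, det_id'] at h3
    exact one_ne_zero h3
  · have h : ContDiff ℝ ∞ (fun p : P2 => (Real.sqrt (1 + p.1 ^ 2 + p.2 ^ 2))⁻¹) := by
      apply ContDiff.inv
      · apply ContDiff.sqrt
        · fun_prop
        · intro p; positivity
      · intro p
        have : (0:ℝ) < 1 + p.1 ^ 2 + p.2 ^ 2 := by positivity
        exact (Real.sqrt_pos.2 this).ne'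
    have h1 : HasFDerivAt (fun p : P2 => (Real.sqrt (1 + p.1 ^ 2 + p.2 ^ 2))⁻¹)
      (fderiv ℝ (fun p : P2 => (Real.sqrt (1 + p.1 ^ 2 + p.2 ^ 2))⁻¹) 0) 0 :=
      (h.differentiable (by simp) 0).hasFDerivAt
    have h2 := h1.smul (hasFDerivAt_id (0 : P2))
    have h3 : io = (fun p : P2 => (Real.sqrt (1 + p.1 ^ 2 + p.2 ^ 2))⁻¹) • id := by
      funext p
      simp [io, Prod.smul_def]
    rw [← h3] at h2
    rw [h2.fderiv]
    have h4 : ((Real.sqrt (1 + (0:P2).1 ^ 2 + (0:P2).2 ^ 2))⁻¹ • ContinuousLinearMap.id ℝ P2 +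
      (fderiv ℝ (fun p : P2 => (Real.sqrt (1 + p.1 ^ 2 + p.2 ^ 2))⁻¹) 0).smulRight (id (0:P2))) =
      ContinuousLinearMap.id ℝ P2 := by
      simp
    rw [h4, det_id']
    exact one_pos

theorem det_jo_pos (q : P2) (hq : ns q < 1) : 0 < (fderiv ℝ jo q).det := by
  have hq' := io_jo q hq
  have h1 : fderiv ℝ (io ∘ jo) q = (fderiv ℝ io (jo q)).comp (fderiv ℝ jo q) :=
    fderiv_comp _ (io_contDiff.differentiable (by simp) _)
      ((jo_contDiffAt q hq).differentiableAt (by simp))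
  have h2 : io ∘ jo =ᶠ[𝓝 q] id := by
    have : ∀ᶠ w in 𝓝 q, ns w < 1 := ns_cont.continuousAt.eventually_lt continuousAt_const hq
    filter_upwards [this] with w hw
    exact io_jo w hw
  rw [h2.fderiv_eq, fderiv_id] at h1
  have h3 := congrArg ContinuousLinearMap.det h1
  rw [det_comp', det_id'] at h3
  have h4 := det_io_pos (jo q)
  by_contra hcon
  push Not at hcon
  nlinarith

theorem det_DC_pos {f : Equiv.Perm P2} (hf : f ∈ DC) (p : P2) :
    0 < (fderiv ℝ (fun p => f p) p).det := by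
  obtain ⟨⟨h1, h2⟩, R, hR⟩ := hf
  refine det_pos_of_ne h1 (fun p => ?_) ((|R| + 2, 0) : P2) ?_ p
  · intro h
    have h3 : fderiv ℝ ((fun p => f⁻¹ p) ∘ (fun p => f p)) p =
        (fderiv ℝ (fun p => f⁻¹ p) (f p)).comp (fderiv ℝ (fun p => f p) p) :=
      fderiv_comp _ (h2.differentiable (by simp) _) (h1.differentiable (by simp) _)
    have h4 : ((fun p => f⁻¹ p) ∘ (fun p => f p)) = id := by
      funext w
      simp
    rw [h4, fderiv_id] at h3
    have h5 := congrArg ContinuousLinearMap.det h3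
    rw [det_comp', h, mul_zero, det_id'] at h5
    exact one_ne_zero h5
  · have h3 : (fun p => f p) =ᶠ[𝓝 ((|R| + 2, 0) : P2)] id := by
      have hc : ∀ᶠ w : P2 in 𝓝 ((|R| + 2, 0) : P2), R < ‖w‖ := by
        apply continuousAt_const.eventually_lt continuous_norm.continuousAt
        rw [Prod.norm_def]
        have := le_abs_self R
        have h5 : |R| + 2 ≤ ‖(|R| + 2 : ℝ)‖ := Real.le_norm_self _
        have h6 := le_max_left ‖(|R| + 2 : ℝ)‖ ‖(0 : ℝ)‖
        simp only at *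
        linarith
      filter_upwards [hc] with w hw
      exact hR w hw
    rw [h3.fderiv_eq, fderiv_id, det_id']
    exact one_pos

/-! ### The transfer -/

theorem nq_eq (p : DD) : nq p = ns p := rfl

theorem iot_jo (p : DD) (h : nq p < 1) : iot (jo p) = p := Subtype.ext (io_jo p h)

theorem nq_iot (p : P2) : nq (iot p) < 1 := ns_io_lt p

open Classical in
/-- the function underlying `J` -/
noncomputable def Jf (f : P2 → P2) (p : DD) : DD := if nq p < 1 then iot (f (jo p)) else p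

theorem Jf_iot (f : P2 → P2) (p : P2) : Jf f (iot p) = iot (f p) := by
  unfold Jf
  rw [if_pos (nq_iot p), iot_coe, jo_io]

theorem Jf_out (f : P2 → P2) (p : DD) (h : ¬ nq p < 1) : Jf f p = p := by
  unfold Jf
  rw [if_neg h]

theorem Jf_Jf (f g : P2 → P2) (p : DD) : Jf f (Jf g p) = Jf (f ∘ g) p := by
  by_cases h : nq p < 1
  · have e := iot_jo p h
    rw [← e, Jf_iot, Jf_iot, Jf_iot]
    rfl
  · rw [Jf_out g p h, Jf_out f p h, Jf_out _ p h]

theorem Jf_id (p : DD) : Jf id p = p := by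
  by_cases h : nq p < 1
  · have e := iot_jo p h
    conv_lhs => rw [← e]
    rw [Jf_iot, id, e]
  · exact Jf_out _ p h

/-- the transfer -/
noncomputable def J (f : Equiv.Perm P2) : Equiv.Perm DD where
  toFun := Jf f
  invFun := Jf (f⁻¹ : Equiv.Perm P2)
  left_inv p := by
    rw [Jf_Jf]
    have : (⇑(f⁻¹ : Equiv.Perm P2) ∘ ⇑f) = id := by funext w; simp
    rw [this, Jf_id]
  right_inv p := by
    rw [Jf_Jf]
    have : (⇑f ∘ ⇑(f⁻¹ : Equiv.Perm P2)) = id := by funext w; simp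
    rw [this, Jf_id]

theorem J_apply (f : Equiv.Perm P2) (p : DD) : J f p = Jf f p := rfl

theorem J_mul (f g : Equiv.Perm P2) : J (f * g) = J f * J g := by
  ext1 p
  rw [Equiv.Perm.mul_apply, J_apply, J_apply, J_apply, Jf_Jf]
  rfl

theorem J_inv (f : Equiv.Perm P2) : (J f)⁻¹ = J f⁻¹ := by
  ext1 p
  rfl

theorem ns_le (p : P2) : ns p ≤ 2 * ‖p‖ ^ 2 := by
  have h1 : |p.1| ≤ ‖p‖ := norm_fst_le p
  have h2 : |p.2| ≤ ‖p‖ := norm_snd_le p
  have h3 : p.1 ^ 2 ≤ ‖p‖ ^ 2 := sq_le_sq' (by linarith [neg_abs_le p.1]) (le_trans (le_abs_self _) h1)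
  have h4 : p.2 ^ 2 ≤ ‖p‖ ^ 2 := sq_le_sq' (by linarith [neg_abs_le p.2]) (le_trans (le_abs_self _) h2)
  unfold ns
  linarith

theorem le_ns (p : P2) : ‖p‖ ^ 2 ≤ ns p := by
  unfold ns
  rw [Prod.norm_def]
  rcases max_choice ‖p.1‖ ‖p.2‖ with h | h
  · rw [h, Real.norm_eq_abs, sq_abs]
    have := sq_nonneg p.2
    linarith
  · rw [h, Real.norm_eq_abs, sq_abs]
    have := sq_nonneg p.1
    linarith

/-- near the circle the preimages are far away -/
theorem far {R : ℝ} {q : P2} (h1 : 1 - (2 * R ^ 2 + 2)⁻¹ < ns q) (h2 : ns q < 1) : R < ‖jo q‖ := by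
  have h3 := one_add_ns_jo q h2
  have h4 : 0 < 1 - ns q := by linarith
  have h5 : 2 * R ^ 2 + 2 < (1 - ns q)⁻¹ := by
    rw [lt_inv_comm₀ (by positivity) h4]
    linarith
  have h6 := ns_le (jo q)
  by_contra hcon
  push Not at hcon
  have h7 : ‖jo q‖ ^ 2 ≤ R ^ 2 := pow_le_pow_left₀ (norm_nonneg _) hcon 2
  linarith

theorem J_extD {f : Equiv.Perm P2} (hf : f ∈ DC) : ExtD (J f) := by
  classical
  obtain ⟨⟨h1, h2⟩, R, hR⟩ := id hf
  set F : P2 → P2 := fun q => if ns q < 1 then io (f (jo q)) else q with hF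
  have hin : ∀ q, ns q < 1 → F =ᶠ[𝓝 q] (io ∘ (fun p => f p) ∘ jo) := by
    intro q hq
    have : ∀ᶠ w in 𝓝 q, ns w < 1 := ns_cont.continuousAt.eventually_lt continuousAt_const hq
    filter_upwards [this] with w hw
    simp only [hF, if_pos hw, Function.comp]
  have hout : ∀ q, ¬ ns q < 1 → F =ᶠ[𝓝 q] id := by
    intro q hq
    have h3 : (0:ℝ) < (2 * R ^ 2 + 2)⁻¹ := by positivity
    have : ∀ᶠ w in 𝓝 q, 1 - (2 * R ^ 2 + 2)⁻¹ < ns w := by
      apply continuousAt_const.eventually_lt ns_cont.continuousAt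
      linarith
    filter_upwards [this] with w hw
    by_cases hw1 : ns w < 1
    · simp only [hF, if_pos hw1, hR _ (far hw hw1), io_jo w hw1, id]
    · simp only [hF, if_neg hw1, id]
  refine ⟨F, ?_, ?_, ?_⟩
  · rw [contDiff_iff_contDiffAt]
    intro q
    by_cases hq : ns q < 1
    · refine ContDiffAt.congr_of_eventuallyEq ?_ (hin q hq)
      exact (io_contDiff.comp h1).contDiffAt.comp q (jo_contDiffAt q hq)
    · exact contDiffAt_id.congr_of_eventuallyEq (hout q hq)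
  · intro p
    rw [J_apply]
    by_cases hp : nq p < 1
    · have e : Jf f p = iot (f (jo p)) := by unfold Jf; rw [if_pos hp]
      rw [e, iot_coe]
      simp only [hF]
      rw [if_pos (show ns p < 1 from hp)]
    · rw [Jf_out _ p hp]
      simp only [hF]
      rw [if_neg (show ¬ ns p < 1 from hp)]
  · intro p
    by_cases hp : ns p < 1
    · rw [(hin p hp).fderiv_eq]
      have d1 : DifferentiableAt ℝ io (f (jo p)) := io_contDiff.differentiable (by simp) _
      have d2 : DifferentiableAt ℝ (fun p => f p) (jo p) := h1.differentiable (by simp) _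
      have d3 : DifferentiableAt ℝ jo (p : P2) := (jo_contDiffAt _ hp).differentiableAt (by simp)
      rw [fderiv_comp (p : P2) d1 (d2.comp (p : P2) d3), fderiv_comp (p : P2) d2 d3, det_comp',
        det_comp']
      exact mul_pos (det_io_pos _) (mul_pos (det_DC_pos hf _) (det_jo_pos _ hp))
    · rw [(hout p hp).fderiv_eq, fderiv_id, det_id']
      exact one_pos

theorem iot_zero : iot 0 = dO := by
  apply Subtype.ext
  simp [iot_coe, io, dO]

theorem J_dO {f : Equiv.Perm P2} (hf : f 0 = 0) : J f dO = dO := by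
  rw [J_apply, ← iot_zero, Jf_iot, hf]

theorem J_GG {f : Equiv.Perm P2} (hf : f ∈ DC0) : J f ∈ GG :=
  ⟨J_extD hf.1, by rw [J_inv]; exact J_extD (DC.inv_mem hf.1), J_dO hf.2⟩

theorem J_G0 {f : Equiv.Perm P2} (hf : f ∈ DC0) : J f ∈ G0 := by
  refine ⟨J_GG hf, ?_⟩
  obtain ⟨⟨h1, h2⟩, R, hR⟩ := hf.1
  refine ⟨(2 * R ^ 2 + 2)⁻¹, by positivity, fun p hp => ?_⟩
  by_cases hp1 : nq p < 1
  · rw [J_apply]
    unfold Jf
    rw [if_pos hp1, hR _ (far hp hp1), iot_jo p hp1]
  · exact Jf_out _ p hp1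

theorem J_G1 {f : Equiv.Perm P2} (hf : f ∈ NP) : J f ∈ G1 := by
  obtain ⟨-, ε, hε, h1⟩ := id hf
  refine ⟨J_GG (NP_le_DC0 hf), ε ^ 2 / (1 + ε ^ 2), by positivity, fun p hp => ?_⟩
  have h2 : ε ^ 2 / (1 + ε ^ 2) < 1 := by
    rw [div_lt_one (by positivity)]
    linarith
  have hp1 : nq p < 1 := by linarith
  rw [J_apply]
  unfold Jf
  rw [if_pos hp1, h1, iot_jo p hp1]
  have h3 := one_add_ns_jo p hp1
  have h4 := le_ns (jo p)
  have h5 : (1 - ns p)⁻¹ < 1 + ε ^ 2 := by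
    rw [inv_lt_comm₀ (by linarith [nq_eq p]) (by positivity)]
    have h6 : (1 + ε ^ 2)⁻¹ = 1 - ε ^ 2 / (1 + ε ^ 2) := by field_simp; ring
    rw [h6]
    linarith [nq_eq p]
  have h7 : ‖jo p‖ ^ 2 < ε ^ 2 := by linarith
  exact lt_of_pow_lt_pow_left₀ 2 hε.le h7

/-- the inverse transfer -/
theorem J_surj {g : Equiv.Perm DD} (hg : g ∈ G0) : ∃ f ∈ DC0, J f = g ∧ (g ∈ G1 → f ∈ NP) := by
  obtain ⟨⟨hg1, hg2, hg3⟩, ε, hε, hgε⟩ := id hg
  have hg' : g⁻¹ ∈ G0 := G0.inv_mem hg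
  obtain ⟨-, ε', hε', hgε'⟩ := id hg'
  have hopen : ∀ p : DD, nq p < 1 → nq (g p) < 1 := by
    intro p hp
    by_contra hcon
    have h1 : g (g p) = g p := hgε _ (by push Not at hcon; linarith)
    have h2 := g.injective h1
    rw [h2] at hcon
    exact hcon hp
  have hopen' : ∀ p : DD, nq p < 1 → nq (g⁻¹ p) < 1 := by
    intro p hp
    by_contra hcon
    have h1 : g⁻¹ (g⁻¹ p) = g⁻¹ p := hgε' _ (by push Not at hcon; linarith)
    have h2 := (g⁻¹).injective h1
    rw [h2] at hcon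
    exact hcon hp
  set f : Equiv.Perm P2 :=
    { toFun := fun p => jo (g (iot p))
      invFun := fun p => jo (g⁻¹ (iot p))
      left_inv := fun p => by
        simp only
        rw [iot_jo _ (hopen _ (nq_iot p)), show g⁻¹ (g (iot p)) = iot p from g.symm_apply_apply _, iot_coe, jo_io]
      right_inv := fun p => by
        simp only
        rw [iot_jo _ (hopen' _ (nq_iot p)), show g (g⁻¹ (iot p)) = iot p from g.apply_symm_apply _, iot_coe, jo_io] } with hf
  have hfa : ∀ p, f p = jo (g (iot p)) := fun p => rfl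
  have hfi : ∀ p, f⁻¹ p = jo (g⁻¹ (iot p)) := fun p => rfl
  have hsm : SmD f := by
    obtain ⟨G, hG, hG', -⟩ := hg1
    obtain ⟨G2, hG2, hG2', -⟩ := hg2
    constructor
    · rw [contDiff_iff_contDiffAt]
      intro p
      have e : (fun p => f p) = jo ∘ (G ∘ io) := by
        funext w
        rw [hfa, hG', iot_coe]
        rfl
      rw [e]
      refine ContDiffAt.comp p (jo_contDiffAt _ ?_) (hG.comp io_contDiff).contDiffAt
      have := hopen _ (nq_iot p)
      rw [nq_eq, hG', iot_coe] at this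
      exact this
    · rw [contDiff_iff_contDiffAt]
      intro p
      have e : (fun p => f⁻¹ p) = jo ∘ (G2 ∘ io) := by
        funext w
        rw [hfi, hG2', iot_coe]
        rfl
      rw [e]
      refine ContDiffAt.comp p (jo_contDiffAt _ ?_) (hG2.comp io_contDiff).contDiffAt
      have := hopen' _ (nq_iot p)
      rw [nq_eq, hG2', iot_coe] at this
      exact this
  have hDC : f ∈ DC := by
    refine ⟨hsm, ε⁻¹ + 1, fun p hp => ?_⟩
    rw [hfa, hgε, iot_coe, jo_io]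
    rw [nq_eq, iot_coe]
    have h1 := one_sub_ns_io p
    have h2 := le_ns p
    have h3 : (ε⁻¹ + 1) ^ 2 < ‖p‖ ^ 2 := pow_lt_pow_left₀ hp (by positivity) (by norm_num)
    have h4 : 0 < ε⁻¹ := by positivity
    have h5 : ε⁻¹ < 1 + ns p := by nlinarith
    have h6 : (1 + ns p)⁻¹ < ε := by
      rw [inv_lt_comm₀ (by linarith) hε]
      exact h5
    linarith
  have h00 : f 0 = 0 := by
    rw [hfa, iot_zero, hg3, ← iot_zero, iot_coe, jo_io]
  refine ⟨f, ⟨hDC, h00⟩, ?_, ?_⟩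
  · ext1 p
    rw [J_apply]
    by_cases hp : nq p < 1
    · have e := iot_jo p hp
      unfold Jf
      rw [if_pos hp, hfa, e, iot_jo _ (hopen p hp)]
    · rw [Jf_out _ p hp, hgε p (by push Not at hp; linarith)]
  · rintro ⟨-, δ, hδ, hδ'⟩
    refine ⟨hDC, min 1 (δ / 2), lt_min one_pos (by positivity), fun p hp => ?_⟩
    rw [hfa, hδ', iot_coe, jo_io]
    have h1 := one_sub_ns_io p
    have h2 := ns_le p
    have h3 := lt_of_lt_of_le hp (min_le_left _ _)
    have h4 := lt_of_lt_of_le hp (min_le_right _ _)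
    have h5 := norm_nonneg p
    have h6 : ns p < δ := by nlinarith
    have h7 : ns (io p) ≤ ns p := by
      have h8 := ns_nonneg p
      have h9 : 1 - ns p ≤ (1 + ns p)⁻¹ := by
        rw [← one_div, le_div_iff₀ (by linarith)]
        nlinarith
      linarith
    rw [nq_eq, iot_coe]
    linarith

theorem t_JJ : S_JJ :=
  ⟨J, fun _ hf => J_G0 hf, fun f _ g _ => J_mul f g, fun _ hf => J_G1 hf, fun _ hg => J_surj hg,
    fun f _ p => by rw [J_apply, Jf_iot]⟩

end Pool.Agent.W714.DQ
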